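import Pool.Agent.Helper25.SH.Defs2

/-! MP_506470_co, finite clique number, module K1: copies inside neighbourhoods. -/

namespace SetHom

variable {V : Type}

/-- common neighbours are transported along patterns -/
lemma k1_apex {G : SimpleGraph V} (hW : WSH G) {k : ℕ} (P : Fin k → Fin k → Bool)
    (hP : ∀ i, ∃ j, j ≠ i ∧ P i j = false) (f g : Fin k → V) (hf : Function.Injective f)
    (hg : Function.Injective g) (hfP : ∀ i j, G.Adj (f i) (f j) ↔ P i j = true)
    (hgP : ∀ i j, G.Adj (g i) (g j) ↔ P i j = true) (v : V) (hv : ∀ i, G.Adj v (f i)) :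
    ∃ x, ∀ i, G.Adj x (g i) := by
  obtain ⟨φ, σ, h1, -⟩ := hW.tuple P hP f g hf hg hfP hgP
  refine ⟨φ v, fun i => ?_⟩
  have h2 := h1 (σ.symm i)
  rw [Equiv.apply_symm_apply] at h2
  rw [← h2, φ.map_adj_iff]
  exact hv _

/-- four independent vertices in a neighbourhood, in order -/
lemma k1_four {G : SimpleGraph V} {S : Set V} (h : RayOn G S) :
    ∃ a b c d, Mid G S a b c ∧ Mid G S a b d ∧ Mid G S a c d ∧ Mid G S b c d := by
  classical
  have h0 : {v ∈ S | ∀ x ∈ (∅ : Finset V), G.Adj v x}.Infinite :=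
    h.common ∅ (by simp) (by intro x hx; simp at hx)
  obtain ⟨x0, hx0, -⟩ := h0.nonempty
  have h1 : {v ∈ S | ∀ x ∈ ({x0} : Finset V), G.Adj v x}.Infinite :=
    h.common {x0} (by simpa using hx0) (by
      intro x hx y hy
      simp only [Finset.mem_singleton] at hx hy
      rw [hx, hy]; exact G.loopless.irrefl x0)
  obtain ⟨I, hI, hc⟩ := h1.exists_subset_card_eq 4
  have hIS : (I : Set V) ⊆ S := fun x hx => (hI hx).1
  have hadj : ∀ x ∈ I, G.Adj x x0 := fun x hx => (hI hx).2 x0 (by simp)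
  have hind : Indep G I := by
    intro x hx y hy hxy
    exact h.tf x (hIS hx) y (hIS hy) x0 hx0 hxy (hadj y hy) (hadj x hx)
  obtain ⟨a, b, c, d, -, h2, h3, h4, h5⟩ := h.quad I hIS hind hc
  exact ⟨a, b, c, d, h2, h3, h4, h5⟩

/-- an edge and a vertex not adjacent to its ends have a common neighbour -/
theorem RL.apex21 {G : SimpleGraph V} (h : RL G) {a b c : V} (hab : G.Adj a b)
    (hac : ¬ G.Adj a c) (hbc : ¬ G.Adj b c) : ∃ x, G.Adj x a ∧ G.Adj x b ∧ G.Adj x c := by
  obtain ⟨v⟩ := h.ne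
  obtain ⟨a', ha', b', hb', c', hc', d', hd', h1, h2, h3, h4, h5, h6⟩ := (h.hR v).two
  obtain ⟨φ, k1, k2⟩ := h.hW.k2k1 h1 h3 h5 hab hac hbc
  have e1 : G.Adj (φ v) (φ a') := (φ.map_adj_iff).2 ha'
  have e2 : G.Adj (φ v) (φ b') := (φ.map_adj_iff).2 hb'
  have e3 : G.Adj (φ v) (φ c') := (φ.map_adj_iff).2 hc'
  rw [k1] at e3
  rcases k2 with ⟨k3, k4⟩ | ⟨k3, k4⟩
  · rw [k3] at e1
    rw [k4] at e2
    exact ⟨φ v, e1, e2, e3⟩
  · rw [k3] at e1
    rw [k4] at e2
    exact ⟨φ v, e2, e1, e3⟩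

/-- a path `a u c` and a further vertex `b` have a common neighbour -/
theorem RL.apex31 {G : SimpleGraph V} (h : RL G) {a b c u : V} (hua : G.Adj u a)
    (huc : G.Adj u c) (hub : ¬ G.Adj u b) (hab : a ≠ b) (hbc : b ≠ c) (hac : a ≠ c)
    (nab : ¬ G.Adj a b) (nbc : ¬ G.Adj b c) (nac : ¬ G.Adj a c) :
    ∃ x, G.Adj x a ∧ G.Adj x b ∧ G.Adj x c ∧ G.Adj x u := by
  obtain ⟨v⟩ := h.ne
  obtain ⟨a', b', c', d', m, -⟩ := k1_four (h.hR v)
  obtain ⟨u', hu', l1, l2, l3⟩ := m.left
  have q1 : u' ≠ a' := l1.ne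
  have q2 : u' ≠ b' := l2.ne
  have q3 : u' ≠ c' := by rintro rfl; exact m.nac l1.symm
  have q4 : u ≠ a := hua.ne
  have q5 : u ≠ c := huc.ne
  have q6 : u ≠ b := by rintro rfl; exact nab hua.symm
  have m1 := m.ab
  have m2 := m.bc
  have m3 := m.ac
  have m4 := m.nab
  have m5 := m.nbc
  have m6 := m.nac
  have hma : G.Adj v a' := m.ma
  have hmb : G.Adj v b' := m.mb
  have hmc : G.Adj v c' := m.mc
  have hmu : G.Adj v u' := hu'
  obtain ⟨x, hx⟩ := k1_apex h.hW (k := 4)
    (fun i j => (i == 0 && (j == 1 || j == 2)) || (j == 0 && (i == 1 || i == 2))) (by decide)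
    ![u', a', b', c'] ![u, a, c, b]
    (by
      intro i j hij
      fin_cases i <;> fin_cases j <;> simp_all [eq_comm])
    (by
      intro i j hij
      fin_cases i <;> fin_cases j <;> simp_all [eq_comm])
    (by
      intro i j
      fin_cases i <;> fin_cases j <;> simp_all [G.adj_comm])
    (by
      intro i j
      fin_cases i <;> fin_cases j <;> simp_all [G.adj_comm])
    v
    (by
      intro i
      fin_cases i <;> simp_all)
  exact ⟨x, by simpa using hx 1, by simpa using hx 3, by simpa using hx 2, by simpa using hx 0⟩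

/-- an edge `u b` and two further independent vertices `a`, `c` have a common neighbour -/
theorem RL.apex211 {G : SimpleGraph V} (h : RL G) {a b c u : V} (hua : ¬ G.Adj u a)
    (huc : ¬ G.Adj u c) (hub : G.Adj u b) (hab : a ≠ b) (hbc : b ≠ c) (hac : a ≠ c)
    (nab : ¬ G.Adj a b) (nbc : ¬ G.Adj b c) (nac : ¬ G.Adj a c) :
    ∃ x, G.Adj x a ∧ G.Adj x b ∧ G.Adj x c ∧ G.Adj x u := by
  obtain ⟨v⟩ := h.ne
  obtain ⟨a', b', c', d', m, -⟩ := k1_four (h.hR v)
  obtain ⟨u', hu', l1, l2⟩ := ((h.hR v).diff a' m.ma b' m.mb m.ab m.nab).nonempty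
  have l3 : ¬ G.Adj c' u' := fun e => l2 (m.conv u' hu' l1.symm e.symm).symm
  have m1 := m.ab
  have m2 := m.bc
  have m3 := m.ac
  have m4 := m.nab
  have m5 := m.nbc
  have m6 := m.nac
  have q1 : u' ≠ a' := l1.ne'
  have q2 : u' ≠ b' := by rintro rfl; exact m4 l1
  have q3 : u' ≠ c' := by rintro rfl; exact m6 l1
  have q4 : u ≠ b := hub.ne
  have q5 : u ≠ a := by rintro rfl; exact nab hub
  have q6 : u ≠ c := by rintro rfl; exact nbc hub.symm
  have hma : G.Adj v a' := m.ma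
  have hmb : G.Adj v b' := m.mb
  have hmc : G.Adj v c' := m.mc
  have hmu : G.Adj v u' := hu'
  have l1' := l1.symm
  have l2' : ¬ G.Adj u' b' := fun e => l2 e.symm
  have l3' : ¬ G.Adj u' c' := fun e => l3 e.symm
  obtain ⟨x, hx⟩ := k1_apex h.hW (k := 4)
    (fun i j => (i == 0 && j == 1) || (j == 0 && i == 1)) (by decide)
    ![u', a', b', c'] ![u, b, a, c]
    (by
      intro i j hij
      fin_cases i <;> fin_cases j <;> simp_all [eq_comm])
    (by
      intro i j hij
      fin_cases i <;> fin_cases j <;> simp_all [eq_comm])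
    (by
      intro i j
      fin_cases i <;> fin_cases j <;> simp_all [G.adj_comm])
    (by
      intro i j
      fin_cases i <;> fin_cases j <;> simp_all [G.adj_comm])
    v
    (by
      intro i
      fin_cases i <;> simp_all)
  exact ⟨x, by simpa using hx 2, by simpa using hx 1, by simpa using hx 3, by simpa using hx 0⟩

/-- every edge together with a non-adjacent vertex extends to a triangle and a non-adjacent
vertex -/
theorem RL.tri {G : SimpleGraph V} (h : RL G) {y j y' : V} (h1 : G.Adj y j)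
    (h2 : ¬ G.Adj y y') (h3 : ¬ G.Adj j y') : ∃ z, G.Adj z y ∧ G.Adj z j ∧ ¬ G.Adj z y' := by
  by_contra hcon
  push Not at hcon
  -- every common neighbour of an edge is adjacent to every vertex not adjacent to its ends
  have key : ∀ p q r : V, G.Adj p q → ¬ G.Adj p r → ¬ G.Adj q r → ∀ z, G.Adj z p → G.Adj z q →
      G.Adj z r := by
    intro p q r hpq hpr hqr z hzp hzq
    obtain ⟨φ, k1, k2⟩ := h.hW.k2k1 hpq hpr hqr h1 h2 h3
    have e1 : G.Adj (φ z) (φ p) := (φ.map_adj_iff).2 hzp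
    have e2 : G.Adj (φ z) (φ q) := (φ.map_adj_iff).2 hzq
    have e3 : G.Adj (φ z) y' := by
      rcases k2 with ⟨k3, k4⟩ | ⟨k3, k4⟩
      · rw [k3] at e1
        rw [k4] at e2
        exact hcon _ e1 e2
      · rw [k3] at e1
        rw [k4] at e2
        exact hcon _ e2 e1
    rw [← k1] at e3
    exact (φ.map_adj_iff).1 e3
  obtain ⟨v⟩ := h.ne
  obtain ⟨u, hu, c, hc, d, hd, e, he, t1, t2, t3, t4, t5, t6⟩ := (h.hR v).two
  have hce : c ≠ e := by rintro rfl; exact t5 t2.symm
  obtain ⟨a, ha, m⟩ := (h.hR v).beyond c hc e he hce t6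
  have hua : G.Adj u a := (m.ray u hu t1).resolve_right t4
  have hda : ¬ G.Adj d a := fun hh => t5 (m.conv d hd hh t2).symm
  have key2 : ∀ z, G.Adj z a → G.Adj z u → G.Adj z c := by
    intro z hza hzu
    have z1 := key a u d hua.symm (fun hh => hda hh.symm) t3 z hza hzu
    have z2 := key a u e hua.symm m.nac t4 z hza hzu
    exact key d e c t2 (fun hh => t5 hh.symm) (fun hh => t6 hh.symm) z z1 z2
  obtain ⟨z, hz, z1, z2⟩ := ((h.hR u).diff a hua c t1 m.ab m.nab).nonempty
  exact z2 (key2 z z1.symm hz.symm).symm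

end SetHom
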