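import Pool.Agent.Helper12.SH.K1

/-! MP_506470_co, finite clique number, module K2: the middle does not depend on the apex. -/

namespace SetHom

variable {V : Type}

/-- `m` is the middle of the set `A` in the neighbourhood of `x` -/
def k2_Md (G : SimpleGraph V) (x : V) (A : Set V) (m : V) : Prop :=
  ∃ p q, A = {p, m, q} ∧ Mid G (G.neighborSet x) p m q

lemma k2_map_nbr {G : SimpleGraph V} (φ : G ≃g G) (x : V) :
    φ '' (G.neighborSet x) = G.neighborSet (φ x) := by
  ext y
  constructor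
  · rintro ⟨z, hz, rfl⟩
    exact (φ.map_adj_iff).2 hz
  · intro hy
    refine ⟨φ.symm y, ?_, by simp⟩
    have : G.Adj (φ x) (φ (φ.symm y)) := by simpa using hy
    exact (φ.map_adj_iff).1 this

lemma k2_Md_map {G : SimpleGraph V} (φ : G ≃g G) {x : V} {A : Set V} {m : V}
    (h : k2_Md G x A m) : k2_Md G (φ x) (φ '' A) (φ m) := by
  obtain ⟨p, q, rfl, hm⟩ := h
  refine ⟨φ p, φ q, ?_, ?_⟩
  · simp only [Set.image_insert_eq, Set.image_singleton]
  · have := hm.map φ φ.injective (fun x y => φ.map_adj_iff)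
    rwa [k2_map_nbr] at this

/-- a Mid on the set `{a,b,c}` with middle `b` -/
lemma k2_Md_iff {G : SimpleGraph V} {x a b c : V} (hab : a ≠ b) (hbc : b ≠ c) (hac : a ≠ c)
    (h : k2_Md G x {a, b, c} b) : Mid G (G.neighborSet x) a b c := by
  obtain ⟨p, q, h1, h2⟩ := h
  have ha : a ∈ ({p, b, q} : Set V) := by rw [← h1]; simp
  have hc : c ∈ ({p, b, q} : Set V) := by rw [← h1]; simp
  simp only [Set.mem_insert_iff, Set.mem_singleton_iff] at ha hc
  rcases ha with e | e | e
  · rcases hc with f | f | f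
    · exact absurd (e.trans f.symm) hac
    · exact absurd f.symm hbc
    · rw [e, f]; exact h2
  · exact absurd e hab
  · rcases hc with f | f | f
    · rw [e, f]; exact h2.symm
    · exact absurd f.symm hbc
    · exact absurd (e.trans f.symm) hac

lemma k2_Md_unique {G : SimpleGraph V} {x : V} {A : Set V} {m m' : V}
    (h : k2_Md G x A m) (h' : k2_Md G x A m') : m = m' := by
  by_contra hne
  obtain ⟨p, q, h1, h2⟩ := h
  have hm' : m' ∈ ({p, m, q} : Set V) := by
    obtain ⟨p', q', h3, -⟩ := h'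
    rw [← h1, h3]; simp
  simp only [Set.mem_insert_iff, Set.mem_singleton_iff] at hm'
  rcases hm' with e | e | e
  · -- `m' = p`
    have h3 : k2_Md G x {m, p, q} p := by
      have : A = {m, p, q} := by rw [h1]; ext z; simp; tauto
      rw [← this, ← e]; exact h'
    exact h2.not_swap (k2_Md_iff h2.ab.symm h2.ac h2.bc h3)
  · exact hne e.symm
  · have h3 : k2_Md G x {m, q, p} q := by
      have : A = {m, q, p} := by rw [h1]; ext z; simp; tauto
      rw [← this, ← e]; exact h'
    exact h2.symm.not_swap (k2_Md_iff h2.bc h2.ac.symm h2.ab.symm h3)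

/-- existence of the middle -/
lemma k2_Md_exists {G : SimpleGraph V} (h : RL G) {x a b c : V} (ha : G.Adj x a) (hb : G.Adj x b)
    (hc : G.Adj x c) (hab : a ≠ b) (hbc : b ≠ c) (hac : a ≠ c) (nab : ¬ G.Adj a b)
    (nbc : ¬ G.Adj b c) (nac : ¬ G.Adj a c) : ∃ m, k2_Md G x {a, b, c} m ∧
      (m = a ∨ m = b ∨ m = c) := by
  rcases (h.hR x).mid a ha b hb c hc hab hbc hac nab nbc nac with h1 | h1 | h1
  · exact ⟨b, ⟨a, c, rfl, h1⟩, by tauto⟩
  · exact ⟨a, ⟨b, c, by ext z; simp only [Set.mem_insert_iff, Set.mem_singleton_iff]; tauto, h1⟩, by tauto⟩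
  · exact ⟨c, ⟨a, b, by rw [Set.pair_comm b c], h1⟩, by tauto⟩

lemma k2_set3 {a b c p q r : V} (h1 : p ≠ q) (h2 : p ≠ r) (h3 : q ≠ r)
    (hp : p = a ∨ p = b ∨ p = c) (hq : q = a ∨ q = b ∨ q = c) (hr : r = a ∨ r = b ∨ r = c) :
    ({p, q, r} : Set V) = {a, b, c} := by
  rcases hp with rfl | rfl | rfl <;> rcases hq with rfl | rfl | rfl <;>
    rcases hr with rfl | rfl | rfl <;>
    first
    | exact absurd rfl h1
    | exact absurd rfl h2
    | exact absurd rfl h3
    | rfl
    | (ext z; simp only [Set.mem_insert_iff, Set.mem_singleton_iff]; tauto)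

/-- (1): non-adjacent common neighbours of an independent triple see the same middle -/
lemma k2_one {G : SimpleGraph V} (h : RL G) {x x' a b c m : V} (hne : x ≠ x')
    (hn : ¬ G.Adj x x') (ha : G.Adj x a) (hb : G.Adj x b) (hc : G.Adj x c)
    (ha' : G.Adj x' a) (hb' : G.Adj x' b) (hc' : G.Adj x' c)
    (hab : a ≠ b) (hbc : b ≠ c) (hac : a ≠ c) (nab : ¬ G.Adj a b)
    (nbc : ¬ G.Adj b c) (nac : ¬ G.Adj a c) (hm : k2_Md G x {a, b, c} m) :
    k2_Md G x' {a, b, c} m := by
  classical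
  obtain ⟨m', hm', -⟩ := k2_Md_exists h ha' hb' hc' hab hbc hac nab nbc nac
  by_cases hmm : m = m'
  · rw [hmm]; exact hm'
  exfalso
  -- for every copy of K_{2,3} the middles differ
  have key : ∀ y y' a' b' c' : V, y ≠ y' → ¬ G.Adj y y' → G.Adj y a' → G.Adj y b' → G.Adj y c' →
      G.Adj y' a' → G.Adj y' b' → G.Adj y' c' → a' ≠ b' → b' ≠ c' → a' ≠ c' → ¬ G.Adj a' b' →
      ¬ G.Adj b' c' → ¬ G.Adj a' c' → ∀ n, k2_Md G y {a', b', c'} n →
      ¬ k2_Md G y' {a', b', c'} n := by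
    intro y y' a' b' c' g1 g2 g3 g4 g5 g6 g7 g8 g9 g10 g11 g12 g13 g14 n hn1 hn2
    have i1 : x ≠ a := ha.ne
    have i2 : x ≠ b := hb.ne
    have i3 : x ≠ c := hc.ne
    have i4 : x' ≠ a := ha'.ne
    have i5 : x' ≠ b := hb'.ne
    have i6 : x' ≠ c := hc'.ne
    have j1 : y ≠ a' := g3.ne
    have j2 : y ≠ b' := g4.ne
    have j3 : y ≠ c' := g5.ne
    have j4 : y' ≠ a' := g6.ne
    have j5 : y' ≠ b' := g7.ne
    have j6 : y' ≠ c' := g8.ne
    obtain ⟨φ, σ, h1, h2⟩ := h.hW.tuple (k := 5)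
      (fun i j => (decide (i.val < 2) && decide (2 ≤ j.val)) ||
        (decide (j.val < 2) && decide (2 ≤ i.val)))
      (by decide) ![y, y', a', b', c'] ![x, x', a, b, c]
      (by
        intro i j hij
        fin_cases i <;> fin_cases j <;> simp_all [eq_comm])
      (by
        intro i j hij
        fin_cases i <;> fin_cases j <;> simp_all [eq_comm])
      (by
        intro i j
        fin_cases i <;> fin_cases j <;> simp_all [G.adj_comm])
      (by
        intro i j
        fin_cases i <;> fin_cases j <;> simp_all [G.adj_comm])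
    have e0 : φ y = ![x, x', a, b, c] (σ 0) := by simpa using h1 0
    have e1 : φ y' = ![x, x', a, b, c] (σ 1) := by simpa using h1 1
    have e2 : φ a' = ![x, x', a, b, c] (σ 2) := by simpa using h1 2
    have e3 : φ b' = ![x, x', a, b, c] (σ 3) := by simpa using h1 3
    have e4 : φ c' = ![x, x', a, b, c] (σ 4) := by simpa using h1 4
    have hs : ∀ σ : Equiv.Perm (Fin 5), (∀ i j, ((decide ((σ i).val < 2) &&
        decide (2 ≤ (σ j).val)) || (decide ((σ j).val < 2) && decide (2 ≤ (σ i).val))) =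
        ((decide (i.val < 2) && decide (2 ≤ j.val)) ||
        (decide (j.val < 2) && decide (2 ≤ i.val)))) →
        ((σ 0 = 0 ∧ σ 1 = 1) ∨ (σ 0 = 1 ∧ σ 1 = 0)) ∧
        ((σ 2 = 2 ∨ σ 2 = 3 ∨ σ 2 = 4) ∧ (σ 3 = 2 ∨ σ 3 = 3 ∨ σ 3 = 4) ∧
          (σ 4 = 2 ∨ σ 4 = 3 ∨ σ 4 = 4)) := by
      decide +kernel
    obtain ⟨s1, s2, s3, s4⟩ := hs σ h2
    have f2 : φ a' = a ∨ φ a' = b ∨ φ a' = c := by
      rcases s2 with s2 | s2 | s2
      · rw [s2] at e2; left; simpa using e2
      · rw [s2] at e2; right; left; simpa using e2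
      · rw [s2] at e2; right; right; simpa using e2
    have f3 : φ b' = a ∨ φ b' = b ∨ φ b' = c := by
      rcases s3 with s3 | s3 | s3
      · rw [s3] at e3; left; simpa using e3
      · rw [s3] at e3; right; left; simpa using e3
      · rw [s3] at e3; right; right; simpa using e3
    have f4 : φ c' = a ∨ φ c' = b ∨ φ c' = c := by
      rcases s4 with s4 | s4 | s4
      · rw [s4] at e4; left; simpa using e4
      · rw [s4] at e4; right; left; simpa using e4
      · rw [s4] at e4; right; right; simpa using e4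
    have himg : φ '' ({a', b', c'} : Set V) = {a, b, c} := by
      simp only [Set.image_insert_eq, Set.image_singleton]
      exact k2_set3 (φ.injective.ne g9) (φ.injective.ne g11) (φ.injective.ne g10) f2 f3 f4
    have m1 := k2_Md_map φ hn1
    have m2 := k2_Md_map φ hn2
    rw [himg] at m1 m2
    rcases s1 with ⟨s1, s1'⟩ | ⟨s1, s1'⟩
    · rw [s1] at e0
      rw [s1'] at e1
      have e0' : φ y = x := by simpa using e0
      have e1' : φ y' = x' := by simpa using e1
      rw [e0'] at m1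
      rw [e1'] at m2
      exact hmm ((k2_Md_unique hm m1).trans (k2_Md_unique m2 hm'))
    · rw [s1] at e0
      rw [s1'] at e1
      have e0' : φ y = x' := by simpa using e0
      have e1' : φ y' = x := by simpa using e1
      rw [e0'] at m1
      rw [e1'] at m2
      exact hmm ((k2_Md_unique hm m2).trans (k2_Md_unique m1 hm'))
  -- four independent vertices in a neighbourhood with three common neighbours
  obtain ⟨v⟩ := h.ne
  obtain ⟨z1, z2, z3, z4, M1, M2, M3, M4⟩ := k1_four (h.hR v)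
  have hv := h.hR v
  have hIS : (({z1, z2, z3, z4} : Finset V) : Set V) ⊆ G.neighborSet v := by
    intro z hz
    simp only [Finset.coe_insert, Finset.coe_singleton, Set.mem_insert_iff,
      Set.mem_singleton_iff] at hz
    rcases hz with rfl | rfl | rfl | rfl
    · exact M1.ma
    · exact M1.mb
    · exact M1.mc
    · exact M2.mc
  have hind : Indep G {z1, z2, z3, z4} := by
    have q1 := M1.nab
    have q2 := M1.nbc
    have q3 := M1.nac
    have q4 := M2.nbc
    have q5 := M2.nac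
    have q6 := M3.nbc
    intro z hz w hw
    simp only [Finset.mem_insert, Finset.mem_singleton] at hz hw
    rcases hz with rfl | rfl | rfl | rfl <;> rcases hw with rfl | rfl | rfl | rfl <;>
      simp_all [G.adj_comm]
  have hinf := hv.common {z1, z2, z3, z4} hIS hind
  obtain ⟨T, hT, hTc⟩ := hinf.exists_subset_card_eq 3
  obtain ⟨p, q, r, pq, pr, qr, rfl⟩ := Finset.card_eq_three.1 hTc
  have Hp := hT (show p ∈ (({p, q, r} : Finset V) : Set V) by simp)
  have Hq := hT (show q ∈ (({p, q, r} : Finset V) : Set V) by simp)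
  have Hr := hT (show r ∈ (({p, q, r} : Finset V) : Set V) by simp)
  have npq : ¬ G.Adj p q := fun e => hv.tf p Hp.1 q Hq.1 z1 M1.ma e
    (Hq.2 z1 (by simp)) (Hp.2 z1 (by simp))
  have npr : ¬ G.Adj p r := fun e => hv.tf p Hp.1 r Hr.1 z1 M1.ma e
    (Hr.2 z1 (by simp)) (Hp.2 z1 (by simp))
  have nqr : ¬ G.Adj q r := fun e => hv.tf q Hq.1 r Hr.1 z1 M1.ma e
    (Hr.2 z1 (by simp)) (Hq.2 z1 (by simp))
  have pair : ∀ z w, z ∈ ({z1, z2, z3, z4} : Finset V) → w ∈ ({z1, z2, z3, z4} : Finset V) →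
      z ≠ w → ∀ n, k2_Md G z {p, q, r} n → ¬ k2_Md G w {p, q, r} n := by
    intro z w hz hw hzw
    exact key z w p q r hzw (hind z hz w hw) (Hp.2 z hz).symm (Hq.2 z hz).symm (Hr.2 z hz).symm
      (Hp.2 w hw).symm (Hq.2 w hw).symm (Hr.2 w hw).symm pq qr pr npq nqr npr
  have ex : ∀ z, z ∈ ({z1, z2, z3, z4} : Finset V) → ∃ n, k2_Md G z {p, q, r} n ∧
      (n = p ∨ n = q ∨ n = r) := fun z hz =>
    k2_Md_exists h (Hp.2 z hz).symm (Hq.2 z hz).symm (Hr.2 z hz).symm pq qr pr npq nqr npr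
  obtain ⟨n1, N1, D1⟩ := ex z1 (by simp)
  obtain ⟨n2, N2, D2⟩ := ex z2 (by simp)
  obtain ⟨n3, N3, D3⟩ := ex z3 (by simp)
  obtain ⟨n4, N4, D4⟩ := ex z4 (by simp)
  have d12 : n1 ≠ n2 := fun e => pair z1 z2 (by simp) (by simp) M1.ab n1 N1 (e ▸ N2)
  have d13 : n1 ≠ n3 := fun e => pair z1 z3 (by simp) (by simp) M1.ac n1 N1 (e ▸ N3)
  have d14 : n1 ≠ n4 := fun e => pair z1 z4 (by simp) (by simp) M2.ac n1 N1 (e ▸ N4)
  have d23 : n2 ≠ n3 := fun e => pair z2 z3 (by simp) (by simp) M1.bc n2 N2 (e ▸ N3)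
  have d24 : n2 ≠ n4 := fun e => pair z2 z4 (by simp) (by simp) M2.bc n2 N2 (e ▸ N4)
  have d34 : n3 ≠ n4 := fun e => pair z3 z4 (by simp) (by simp) M3.bc n3 N3 (e ▸ N4)
  rcases D1 with rfl | rfl | rfl <;> rcases D2 with rfl | rfl | rfl <;>
    rcases D3 with rfl | rfl | rfl <;> rcases D4 with rfl | rfl | rfl <;>
    first
    | exact d12 rfl
    | exact d13 rfl
    | exact d14 rfl
    | exact d23 rfl
    | exact d24 rfl
    | exact d34 rfl

/-- non-adjacency is transitive on the common neighbours of `A` -/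
def k2_NT (G : SimpleGraph V) (A : Set V) : Prop :=
  ∀ z1 z2 z3, (∀ a ∈ A, G.Adj z1 a) → (∀ a ∈ A, G.Adj z2 a) → (∀ a ∈ A, G.Adj z3 a) →
    ¬ G.Adj z1 z2 → ¬ G.Adj z2 z3 → ¬ G.Adj z1 z3

lemma k2_NT_map {G : SimpleGraph V} (φ : G ≃g G) {A : Set V} (h : k2_NT G A) :
    k2_NT G (φ '' A) := by
  intro z1 z2 z3 h1 h2 h3 h4 h5
  have e : ∀ z, (∀ a ∈ φ '' A, G.Adj z a) → ∀ a ∈ A, G.Adj (φ.symm z) a := by
    intro z hz a ha
    have := hz (φ a) (Set.mem_image_of_mem _ ha)
    have h6 : G.Adj (φ (φ.symm z)) (φ a) := by simpa using this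
    exact (φ.map_adj_iff).1 h6
  have f : ∀ z w, G.Adj (φ.symm z) (φ.symm w) ↔ G.Adj z w := fun z w => φ.symm.map_adj_iff
  have := h (φ.symm z1) (φ.symm z2) (φ.symm z3) (e z1 h1) (e z2 h2) (e z3 h3)
    (by rwa [f]) (by rwa [f])
  rwa [f] at this

/-- (2): adjacent common neighbours of an independent triple see the same middle -/
lemma k2_two {G : SimpleGraph V} (h : RL G) {x x' a b c m : V}
    (ha : G.Adj x a) (hb : G.Adj x b) (hc : G.Adj x c)
    (ha' : G.Adj x' a) (hb' : G.Adj x' b) (hc' : G.Adj x' c)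
    (hab : a ≠ b) (hbc : b ≠ c) (hac : a ≠ c) (nab : ¬ G.Adj a b)
    (nbc : ¬ G.Adj b c) (nac : ¬ G.Adj a c) (hm : k2_Md G x {a, b, c} m) :
    k2_Md G x' {a, b, c} m := by
  classical
  have K4 : ∀ p q r s : V, G.Adj p q → G.Adj p r → G.Adj p s → G.Adj q r → G.Adj q s →
      G.Adj r s → False := by
    intro p q r s h1 h2 h3 h4 h5 h6
    refine h.hK {p, q, r, s} ?_
    have e0 : G.IsNClique 3 {q, r, s} := SimpleGraph.is3Clique_iff.2 ⟨q, r, s, h4, h5, h6, rfl⟩
    refine e0.insert ?_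
    intro b hb
    simp only [Finset.mem_insert, Finset.mem_singleton] at hb
    rcases hb with rfl | rfl | rfl <;> assumption
  obtain ⟨m', hm', -⟩ := k2_Md_exists h ha' hb' hc' hab hbc hac nab nbc nac
  by_cases hmm : m = m'
  · rw [hmm]; exact hm'
  exfalso
  -- transport of (1) to equal or non-adjacent vertices
  have one : ∀ z w n, (∀ y ∈ ({a, b, c} : Set V), G.Adj z y) →
      (∀ y ∈ ({a, b, c} : Set V), G.Adj w y) → ¬ G.Adj z w → k2_Md G z {a, b, c} n →
      k2_Md G w {a, b, c} n := by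
    intro z w n hz hw hzw hn
    by_cases e : z = w
    · rw [← e]; exact hn
    · exact k2_one h e hzw (hz a (by simp)) (hz b (by simp)) (hz c (by simp)) (hw a (by simp))
        (hw b (by simp)) (hw c (by simp)) hab hbc hac nab nbc nac hn
  have hx : ∀ y ∈ ({a, b, c} : Set V), G.Adj x y := by
    intro y hy
    simp only [Set.mem_insert_iff, Set.mem_singleton_iff] at hy
    rcases hy with rfl | rfl | rfl <;> assumption
  have hx' : ∀ y ∈ ({a, b, c} : Set V), G.Adj x' y := by
    intro y hy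
    simp only [Set.mem_insert_iff, Set.mem_singleton_iff] at hy
    rcases hy with rfl | rfl | rfl <;> assumption
  have hNT : k2_NT G {a, b, c} := by
    intro z1 z2 z3 h1 h2 h3 h4 h5 h6
    obtain ⟨n, hn, -⟩ := k2_Md_exists h (h1 a (by simp)) (h1 b (by simp)) (h1 c (by simp)) hab hbc
      hac nab nbc nac
    have hn2 := one z1 z2 n h1 h2 h4 hn
    have hn3 := one z2 z3 n h2 h3 h5 hn2
    -- some vertex with another middle
    obtain ⟨y, hy, n', hn', hnn⟩ : ∃ y, (∀ w ∈ ({a, b, c} : Set V), G.Adj y w) ∧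
        ∃ n', k2_Md G y {a, b, c} n' ∧ n' ≠ n := by
      by_cases e : m = n
      · exact ⟨x', hx', m', hm', fun e' => hmm (e.trans e'.symm)⟩
      · exact ⟨x, hx, m, hm, e⟩
    have y1 : G.Adj y z1 := by
      by_contra hc'
      exact hnn (k2_Md_unique (one y z1 n' hy h1 hc' hn') hn)
    have y3 : G.Adj y z3 := by
      by_contra hc'
      exact hnn (k2_Md_unique (one y z3 n' hy h3 hc' hn') hn3)
    exact K4 y z1 z3 a y1 y3 (hy a (by simp)) h6 (h1 a (by simp)) (h3 a (by simp))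
  have allNT : ∀ a' b' c' : V, a' ≠ b' → b' ≠ c' → a' ≠ c' → ¬ G.Adj a' b' → ¬ G.Adj b' c' →
      ¬ G.Adj a' c' → k2_NT G {a', b', c'} := by
    intro a' b' c' g1 g2 g3 g4 g5 g6
    obtain ⟨φ, hφ⟩ := h.hW.triple hab hbc hac nab nbc nac g1 g2 g3 g4 g5 g6
    rw [← hφ]
    exact k2_NT_map φ hNT
  obtain ⟨v⟩ := h.ne
  have hv := h.hR v
  obtain ⟨x1, x2, x3, x4, M, -, -, -⟩ := k1_four hv
  have hIS : (({x1, x2, x3} : Finset V) : Set V) ⊆ G.neighborSet v := by
    intro z hz
    simp only [Finset.coe_insert, Finset.coe_singleton, Set.mem_insert_iff,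
      Set.mem_singleton_iff] at hz
    rcases hz with rfl | rfl | rfl
    · exact M.ma
    · exact M.mb
    · exact M.mc
  have n12 := M.nab
  have n23 := M.nbc
  have n13 := M.nac
  have hind : Indep G {x1, x2, x3} := by
    intro z hz w hw
    simp only [Finset.mem_insert, Finset.mem_singleton] at hz hw
    rcases hz with rfl | rfl | rfl <;> rcases hw with rfl | rfl | rfl <;>
      simp_all [G.adj_comm]
  have hinf := hv.common {x1, x2, x3} hIS hind
  obtain ⟨I, hI, hIc⟩ := hinf.exists_subset_card_eq 4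
  have I1 : (I : Set V) ⊆ G.neighborSet x1 := fun z hz => ((hI hz).2 x1 (by simp)).symm
  have Iind : Indep G I := by
    intro z hz w hw e
    exact hv.tf z (hI hz).1 w (hI hw).1 x1 M.ma e ((hI hw).2 x1 (by simp))
      ((hI hz).2 x1 (by simp))
  obtain ⟨p, q, r, s, hset, Q1, Q2, Q3, Q4⟩ := (h.hR x1).quad I I1 Iind hIc
  have Hp := hI (show p ∈ (I : Set V) by rw [hset]; simp)
  have Hq := hI (show q ∈ (I : Set V) by rw [hset]; simp)
  have Hr := hI (show r ∈ (I : Set V) by rw [hset]; simp)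
  have Hs := hI (show s ∈ (I : Set V) by rw [hset]; simp)
  obtain ⟨u, hu, u1, u2⟩ := ((h.hR x1).diff r Q4.mb s Q4.mc Q4.bc Q4.nbc).nonempty
  have uq : G.Adj u q := (Q4.ray u hu u1.symm).resolve_right (fun e => u2 e.symm)
  have up : G.Adj u p := (Q3.ray u hu u1.symm).resolve_right (fun e => u2 e.symm)
  have ux1 : G.Adj u x1 := hu.symm
  have NA := allNT p q r Q1.ab Q1.bc Q1.ac Q1.nab Q1.nbc Q1.nac
  have cu : ∀ y ∈ ({p, q, r} : Set V), G.Adj u y := by
    intro y hy
    simp only [Set.mem_insert_iff, Set.mem_singleton_iff] at hy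
    rcases hy with rfl | rfl | rfl
    · exact up
    · exact uq
    · exact u1.symm
  have cx : ∀ z ∈ ({x1, x2, x3} : Finset V), ∀ y ∈ ({p, q, r} : Set V), G.Adj z y := by
    intro z hz y hy
    simp only [Set.mem_insert_iff, Set.mem_singleton_iff] at hy
    rcases hy with rfl | rfl | rfl
    · exact (Hp.2 z hz).symm
    · exact (Hq.2 z hz).symm
    · exact (Hr.2 z hz).symm
  have ux2 : G.Adj u x2 := by
    by_contra e
    exact NA u x2 x1 cu (cx x2 (by simp)) (cx x1 (by simp)) e (fun f => n12 f.symm) ux1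
  have ux3 : G.Adj u x3 := by
    by_contra e
    exact NA u x3 x1 cu (cx x3 (by simp)) (cx x1 (by simp)) e (fun f => n13 f.symm) ux1
  have NX := allNT x1 x2 x3 M.ab M.bc M.ac n12 n23 n13
  have nuv : ¬ G.Adj u v := fun e => K4 u v x1 p e ux1 up M.ma Hp.1 (Hp.2 x1 (by simp)).symm
  have := NX v u s
    (by
      intro y hy
      exact hIS (by simpa using hy))
    (by
      intro y hy
      simp only [Set.mem_insert_iff, Set.mem_singleton_iff] at hy
      rcases hy with rfl | rfl | rfl <;> assumption)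
    (by
      intro y hy
      exact Hs.2 y (by simpa using hy))
    (fun e => nuv e.symm) (fun e => u2 e.symm)
  exact this Hs.1

/-- the middle of an independent triple is the same in the neighbourhood of every common
neighbour -/
theorem RL.mid_apex {G : SimpleGraph V} (h : RL G) {a b c x x' : V}
    (hx : Mid G (G.neighborSet x) a b c) (ha : G.Adj x' a) (hb : G.Adj x' b) (hc : G.Adj x' c) :
    Mid G (G.neighborSet x') a b c := by
  apply k2_Md_iff hx.ab hx.bc hx.ac
  exact k2_two h hx.ma hx.mb hx.mc ha hb hc hx.ab hx.bc hx.ac hx.nab hx.nbc hx.nac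
    ⟨a, c, rfl, hx⟩

end SetHom
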