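import Pool.Agent.Helper12.SH.K2

/-! MP_506470_co, finite clique number, module K3: links of ray type are impossible. -/

namespace SetHom

variable {V : Type}

/-- (A5), first half -/
lemma k3_conv {G : SimpleGraph V} (h : RL G) {x a b c u : V}
    (m : Mid G (G.neighborSet x) a b c) (ha : G.Adj u a) (hc : G.Adj u c) : G.Adj u b := by
  by_contra hb
  obtain ⟨y, ya, yb, yc, yu⟩ := h.apex31 ha hc hb m.ab m.bc m.ac m.nab m.nbc m.nac
  exact hb ((h.mid_apex m ya yb yc).conv u yu ha hc)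

/-- (A5), second half -/
lemma k3_ray {G : SimpleGraph V} (h : RL G) {x a b c u : V}
    (m : Mid G (G.neighborSet x) a b c) (hb : G.Adj u b) : G.Adj u a ∨ G.Adj u c := by
  by_contra hcon
  push Not at hcon
  obtain ⟨y, ya, yb, yc, yu⟩ := h.apex211 hcon.1 hcon.2 hb m.ab m.bc m.ac m.nab m.nbc m.nac
  rcases (h.mid_apex m ya yb yc).ray u yu hb with e | e
  · exact hcon.1 e
  · exact hcon.2 e

/-- (A10) -/
lemma k3_tr {G : SimpleGraph V} (h : RL G) {y y' j1 j2 i1 i2 : V} (nyy : ¬ G.Adj y y')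
    (hyy : y ≠ y') (h1 : G.Adj y j1) (h1' : ¬ G.Adj y' j1) (h2 : G.Adj y j2)
    (h2' : ¬ G.Adj y' j2) (hne : j1 ≠ j2) (hna : ¬ G.Adj j1 j2) (g1 : G.Adj y i1)
    (g1' : ¬ G.Adj y' i1) (g2 : G.Adj y i2) (g2' : ¬ G.Adj y' i2) (gne : i1 ≠ i2)
    (gna : ¬ G.Adj i1 i2) : ∃ φ : G ≃g G, φ y = y ∧ φ y' = y' ∧
      ((φ j1 = i1 ∧ φ j2 = i2) ∨ (φ j1 = i2 ∧ φ j2 = i1)) := by
  have q1 : y ≠ j1 := h1.ne
  have q2 : y ≠ j2 := h2.ne
  have q3 : y' ≠ j1 := by rintro rfl; exact nyy h1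
  have q4 : y' ≠ j2 := by rintro rfl; exact nyy h2
  have q5 : y ≠ i1 := g1.ne
  have q6 : y ≠ i2 := g2.ne
  have q7 : y' ≠ i1 := by rintro rfl; exact nyy g1
  have q8 : y' ≠ i2 := by rintro rfl; exact nyy g2
  have nyy' : ¬ G.Adj y' y := fun e => nyy e.symm
  have h3' : ¬ G.Adj j1 y' := fun e => h1' e.symm
  have h4' : ¬ G.Adj j2 y' := fun e => h2' e.symm
  have g3' : ¬ G.Adj i1 y' := fun e => g1' e.symm
  have g4' : ¬ G.Adj i2 y' := fun e => g2' e.symm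
  have hna' : ¬ G.Adj j2 j1 := fun e => hna e.symm
  have gna' : ¬ G.Adj i2 i1 := fun e => gna e.symm
  have h3 := h1.symm
  have h4 := h2.symm
  have g3 := g1.symm
  have g4 := g2.symm
  obtain ⟨φ, σ, k1, k2⟩ := h.hW.tuple (k := 4)
    (fun i j => (i == 0 && (j == 1 || j == 2)) || (j == 0 && (i == 1 || i == 2))) (by decide)
    ![y, j1, j2, y'] ![y, i1, i2, y']
    (by
      intro i j hij
      fin_cases i <;> fin_cases j <;> simp_all [eq_comm])
    (by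
      intro i j hij
      fin_cases i <;> fin_cases j <;> simp_all [eq_comm])
    (by
      intro i j
      fin_cases i <;> fin_cases j <;> simp_all)
    (by
      intro i j
      fin_cases i <;> fin_cases j <;> simp_all)
  have hs : ∀ σ : Equiv.Perm (Fin 4), (∀ i j,
      ((σ i == 0 && (σ j == 1 || σ j == 2)) || (σ j == 0 && (σ i == 1 || σ i == 2))) =
      ((i == 0 && (j == 1 || j == 2)) || (j == 0 && (i == 1 || i == 2)))) →
      σ 0 = 0 ∧ σ 3 = 3 ∧ ((σ 1 = 1 ∧ σ 2 = 2) ∨ (σ 1 = 2 ∧ σ 2 = 1)) := by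
    decide +kernel
  obtain ⟨s0, s3, s12⟩ := hs σ k2
  have e0 : φ y = ![y, i1, i2, y'] (σ 0) := by simpa using k1 0
  have e1 : φ j1 = ![y, i1, i2, y'] (σ 1) := by simpa using k1 1
  have e2 : φ j2 = ![y, i1, i2, y'] (σ 2) := by simpa using k1 2
  have e3 : φ y' = ![y, i1, i2, y'] (σ 3) := by simpa using k1 3
  refine ⟨φ, ?_, ?_, ?_⟩
  · rw [e0, s0]; rfl
  · rw [e3, s3]; rfl
  · rcases s12 with ⟨s1, s2⟩ | ⟨s1, s2⟩
    · left
      rw [e1, e2, s1, s2]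
      exact ⟨rfl, rfl⟩
    · right
      rw [e1, e2, s1, s2]
      exact ⟨rfl, rfl⟩

/-- the combinatorial core of (A13) -/
lemma k3_core {G : SimpleGraph V} (h : RL G) {y t1 s1 t2 s2 : V}
    (hI : ∀ z ∈ ({t1, s1, t2, s2} : Set V), G.Adj y z)
    (hind : ∀ z ∈ ({t1, s1, t2, s2} : Set V), ∀ w ∈ ({t1, s1, t2, s2} : Set V), ¬ G.Adj z w)
    (d1 : t1 ≠ s1) (d2 : t1 ≠ t2) (d3 : t1 ≠ s2) (d4 : s1 ≠ t2) (d5 : s1 ≠ s2) (d6 : t2 ≠ s2) :
    ∃ a ∈ ({t1, s1, t2, s2} : Set V), ∃ b ∈ ({t1, s1, t2, s2} : Set V), a ≠ b ∧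
      ∀ u, (∀ F : V → ℕ, (∀ x, G.Adj u x → F x = 1) → (∀ x, ¬ G.Adj u x → F x = 0) →
          F t1 + F s1 + F t2 + F s2 = 2) → (G.Adj u a ↔ G.Adj u b) := by
  classical
  have hIS : (({t1, s1, t2, s2} : Finset V) : Set V) ⊆ G.neighborSet y := by
    intro z hz
    exact hI z (by simpa using hz)
  have hind' : Indep G {t1, s1, t2, s2} := by
    intro z hz w hw
    exact hind z (by simpa using hz) w (by simpa using hw)
  have hc : ({t1, s1, t2, s2} : Finset V).card = 4 := by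
    rw [Finset.card_insert_of_notMem, Finset.card_insert_of_notMem, Finset.card_insert_of_notMem,
      Finset.card_singleton]
    · simpa using d6
    · simp only [Finset.mem_insert, Finset.mem_singleton]; tauto
    · simp only [Finset.mem_insert, Finset.mem_singleton]; tauto
  obtain ⟨a, b, c, d, hset, M1, M2, M3, M4⟩ := (h.hR y).quad {t1, s1, t2, s2} hIS hind' hc
  have hfin : ({t1, s1, t2, s2} : Finset V) = {a, b, c, d} := by
    apply Finset.coe_injective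
    rw [hset]
    simp
  have hsum : ∀ F : V → ℕ, F t1 + F s1 + F t2 + F s2 = F a + F b + F c + F d := by
    intro F
    have e1 : ∑ x ∈ ({t1, s1, t2, s2} : Finset V), F x = F t1 + F s1 + F t2 + F s2 := by
      rw [Finset.sum_insert, Finset.sum_insert, Finset.sum_insert, Finset.sum_singleton]
      · ring
      · simpa using d6
      · simp only [Finset.mem_insert, Finset.mem_singleton]; tauto
      · simp only [Finset.mem_insert, Finset.mem_singleton]; tauto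
    have f1 := M1.ab
    have f2 := M1.bc
    have f3 := M1.ac
    have f4 := M2.bc
    have f5 := M2.ac
    have f6 := M3.bc
    have e2 : ∑ x ∈ ({a, b, c, d} : Finset V), F x = F a + F b + F c + F d := by
      rw [Finset.sum_insert, Finset.sum_insert, Finset.sum_insert, Finset.sum_singleton]
      · ring
      · simpa using f6
      · simp only [Finset.mem_insert, Finset.mem_singleton]; tauto
      · simp only [Finset.mem_insert, Finset.mem_singleton]; tauto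
    rw [← e1, ← e2, hfin]
  have ma : a ∈ ({t1, s1, t2, s2} : Set V) := by
    have : a ∈ (({t1, s1, t2, s2} : Finset V) : Set V) := by rw [hset]; simp
    simpa using this
  have mb : b ∈ ({t1, s1, t2, s2} : Set V) := by
    have : b ∈ (({t1, s1, t2, s2} : Finset V) : Set V) := by rw [hset]; simp
    simpa using this
  refine ⟨a, ma, b, mb, M1.ab, ?_⟩
  intro u hu
  let F : V → ℕ := fun x => if G.Adj u x then 1 else 0
  have hF1 : ∀ x, G.Adj u x → F x = 1 := fun x hx => if_pos hx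
  have hF0 : ∀ x, ¬ G.Adj u x → F x = 0 := fun x hx => if_neg hx
  have h2 := hu F hF1 hF0
  rw [hsum F] at h2
  by_cases ca : G.Adj u a
  · by_cases cb : G.Adj u b
    · exact iff_of_true ca cb
    · exfalso
      have cc : ¬ G.Adj u c := fun e => cb (k3_conv h M1 ca e)
      have cd : ¬ G.Adj u d := fun e => cb (k3_conv h M2 ca e)
      rw [hF1 a ca, hF0 b cb, hF0 c cc, hF0 d cd] at h2
      omega
  · by_cases cb : G.Adj u b
    · exfalso
      have cc : G.Adj u c := (k3_ray h M1 cb).resolve_left ca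
      have cd : G.Adj u d := (k3_ray h M2 cb).resolve_left ca
      rw [hF0 a ca, hF1 b cb, hF1 c cc, hF1 d cd] at h2
      omega
    · exact iff_of_false ca cb

theorem ray_false {G : SimpleGraph V} (h : RL G) : False := by
  classical
  obtain ⟨v⟩ := h.ne
  have hv := h.hR v
  obtain ⟨y, y', _, _, M, -, -, -⟩ := k1_four hv
  have hy : G.Adj v y := M.ma
  have hy' : G.Adj v y' := M.mb
  have hyy : y ≠ y' := M.ab
  have nyy : ¬ G.Adj y y' := M.nab
  have hR := h.hR y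
  -- triangle-freeness of the neighbourhood of `y`
  have tf : ∀ a b c, G.Adj y a → G.Adj y b → G.Adj y c → G.Adj a b → G.Adj b c → G.Adj a c →
      False := fun a b c ha hb hc => hR.tf a ha b hb c hc
  -- (A9)
  obtain ⟨j1, j2, j3, J1, J1', J2, J2', J3, J3', m⟩ : ∃ j1 j2 j3, G.Adj y j1 ∧ ¬ G.Adj y' j1 ∧
      G.Adj y j2 ∧ ¬ G.Adj y' j2 ∧ G.Adj y j3 ∧ ¬ G.Adj y' j3 ∧
      Mid G (G.neighborSet y) j1 j2 j3 := by
    obtain ⟨T, hT, hTc⟩ := (hv.diff y hy y' hy' hyy nyy).exists_subset_card_eq 3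
    obtain ⟨p, q, r, pq, pr, qr, rfl⟩ := Finset.card_eq_three.1 hTc
    obtain ⟨P1, P2, P3⟩ := hT (show p ∈ (({p, q, r} : Finset V) : Set V) by simp)
    obtain ⟨Q1, Q2, Q3⟩ := hT (show q ∈ (({p, q, r} : Finset V) : Set V) by simp)
    obtain ⟨R1, R2, R3⟩ := hT (show r ∈ (({p, q, r} : Finset V) : Set V) by simp)
    have npq : ¬ G.Adj p q := fun e => hv.tf p P1 q Q1 y hy e Q2.symm P2.symm
    have npr : ¬ G.Adj p r := fun e => hv.tf p P1 r R1 y hy e R2.symm P2.symm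
    have nqr : ¬ G.Adj q r := fun e => hv.tf q Q1 r R1 y hy e R2.symm Q2.symm
    rcases hR.mid p P2 q Q2 r R2 pq qr pr npq nqr npr with e | e | e
    · exact ⟨p, q, r, P2, P3, Q2, Q3, R2, R3, e⟩
    · exact ⟨q, p, r, Q2, Q3, P2, P3, R2, R3, e⟩
    · exact ⟨p, r, q, P2, P3, R2, R3, Q2, Q3, e⟩
  -- (A8)
  obtain ⟨t, ty, tj, ty'⟩ := h.apex21 J2 nyy (fun e => J2' e.symm)
  obtain ⟨s, sy, sj, sy'⟩ := h.tri J2 nyy (fun e => J2' e.symm)
  -- (A11)
  have exT : ∀ i1 i2, G.Adj y i1 → ¬ G.Adj y' i1 → G.Adj y i2 → ¬ G.Adj y' i2 → i1 ≠ i2 →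
      ¬ G.Adj i1 i2 → ∃ t, G.Adj t y ∧ G.Adj t y' ∧ G.Adj t i1 ∧ G.Adj t i2 := by
    intro i1 i2 g1 g1' g2 g2' gne gna
    rcases m.ray t ty.symm tj with e | e
    · obtain ⟨φ, k1, k2, k3⟩ := k3_tr h nyy hyy J1 J1' J2 J2' m.ab m.nab g1 g1' g2 g2' gne gna
      have a1 : G.Adj (φ t) (φ y) := φ.map_adj_iff.2 ty
      have a2 : G.Adj (φ t) (φ y') := φ.map_adj_iff.2 ty'
      have a3 : G.Adj (φ t) (φ j1) := φ.map_adj_iff.2 e
      have a4 : G.Adj (φ t) (φ j2) := φ.map_adj_iff.2 tj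
      rw [k1] at a1
      rw [k2] at a2
      rcases k3 with ⟨k3, k4⟩ | ⟨k3, k4⟩
      · rw [k3] at a3
        rw [k4] at a4
        exact ⟨φ t, a1, a2, a3, a4⟩
      · rw [k3] at a3
        rw [k4] at a4
        exact ⟨φ t, a1, a2, a4, a3⟩
    · obtain ⟨φ, k1, k2, k3⟩ := k3_tr h nyy hyy J2 J2' J3 J3' m.bc m.nbc g1 g1' g2 g2' gne gna
      have a1 : G.Adj (φ t) (φ y) := φ.map_adj_iff.2 ty
      have a2 : G.Adj (φ t) (φ y') := φ.map_adj_iff.2 ty'
      have a3 : G.Adj (φ t) (φ j2) := φ.map_adj_iff.2 tj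
      have a4 : G.Adj (φ t) (φ j3) := φ.map_adj_iff.2 e
      rw [k1] at a1
      rw [k2] at a2
      rcases k3 with ⟨k3, k4⟩ | ⟨k3, k4⟩
      · rw [k3] at a3
        rw [k4] at a4
        exact ⟨φ t, a1, a2, a3, a4⟩
      · rw [k3] at a3
        rw [k4] at a4
        exact ⟨φ t, a1, a2, a4, a3⟩
  have exS : ∀ i1 i2, G.Adj y i1 → ¬ G.Adj y' i1 → G.Adj y i2 → ¬ G.Adj y' i2 → i1 ≠ i2 →
      ¬ G.Adj i1 i2 → ∃ s, G.Adj s y ∧ ¬ G.Adj s y' ∧ G.Adj s i1 ∧ G.Adj s i2 := by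
    intro i1 i2 g1 g1' g2 g2' gne gna
    rcases m.ray s sy.symm sj with e | e
    · obtain ⟨φ, k1, k2, k3⟩ := k3_tr h nyy hyy J1 J1' J2 J2' m.ab m.nab g1 g1' g2 g2' gne gna
      have a1 : G.Adj (φ s) (φ y) := φ.map_adj_iff.2 sy
      have a2 : ¬ G.Adj (φ s) (φ y') := fun e => sy' (φ.map_adj_iff.1 e)
      have a3 : G.Adj (φ s) (φ j1) := φ.map_adj_iff.2 e
      have a4 : G.Adj (φ s) (φ j2) := φ.map_adj_iff.2 sj
      rw [k1] at a1
      rw [k2] at a2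
      rcases k3 with ⟨k3, k4⟩ | ⟨k3, k4⟩
      · rw [k3] at a3
        rw [k4] at a4
        exact ⟨φ s, a1, a2, a3, a4⟩
      · rw [k3] at a3
        rw [k4] at a4
        exact ⟨φ s, a1, a2, a4, a3⟩
    · obtain ⟨φ, k1, k2, k3⟩ := k3_tr h nyy hyy J2 J2' J3 J3' m.bc m.nbc g1 g1' g2 g2' gne gna
      have a1 : G.Adj (φ s) (φ y) := φ.map_adj_iff.2 sy
      have a2 : ¬ G.Adj (φ s) (φ y') := fun e => sy' (φ.map_adj_iff.1 e)
      have a3 : G.Adj (φ s) (φ j2) := φ.map_adj_iff.2 sj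
      have a4 : G.Adj (φ s) (φ j3) := φ.map_adj_iff.2 e
      rw [k1] at a1
      rw [k2] at a2
      rcases k3 with ⟨k3, k4⟩ | ⟨k3, k4⟩
      · rw [k3] at a3
        rw [k4] at a4
        exact ⟨φ s, a1, a2, a3, a4⟩
      · rw [k3] at a3
        rw [k4] at a4
        exact ⟨φ s, a1, a2, a4, a3⟩
  -- (A12)
  obtain ⟨j, j', k, Hj, Hj', Hi, Hi', Hk, Hk', hjj, hkj, hkj'⟩ : ∃ j j' k, G.Adj y j ∧
      ¬ G.Adj y' j ∧ G.Adj y j' ∧ ¬ G.Adj y' j' ∧ G.Adj y k ∧ ¬ G.Adj y' k ∧ G.Adj j j' ∧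
      ¬ G.Adj j k ∧ ¬ G.Adj j' k := by
    have n12 := m.nab
    have n23 := m.nbc
    have Js' : ¬ G.Adj y' s := fun e => sy' e.symm
    by_cases c1 : G.Adj s j1
    · by_cases c3 : G.Adj s j3
      · obtain ⟨w, hw, w1, w2, w3⟩ := m.left
        obtain ⟨z, hz, z2, z3, z1⟩ := m.right
        by_cases cw : G.Adj y' w
        · by_cases cz : G.Adj y' z
          · exfalso
            have nws : ¬ G.Adj w s := fun e => tf w s j2 hw sy.symm J2 e sj w2
            have nsz : ¬ G.Adj s z := fun e => tf s z j2 sy.symm hz J2 e z2 sj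
            have nwz : ¬ G.Adj w z := fun e => tf w z j2 hw hz J2 e z2 w2
            have dws : w ≠ s := by rintro rfl; exact w3 c3
            have dsz : s ≠ z := by rintro rfl; exact z1 c1
            have dwz : w ≠ z := by rintro rfl; exact z1 w1
            rcases hR.mid w hw s sy.symm z hz dws dsz dwz nws nsz nwz with e | e | e
            · exact sy' (k3_conv h e cw cz).symm
            · exact w3 (e.conv j3 J3 c3.symm z3.symm).symm
            · exact z1 (e.conv j1 J1 w1.symm c1.symm).symm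
          · exact ⟨z, j2, j1, hz, cz, J2, J2', J1, J1', z2, z1, fun e => n12 e.symm⟩
        · exact ⟨w, j2, j3, hw, cw, J2, J2', J3, J3', w2, w3, n23⟩
      · exact ⟨s, j2, j3, sy.symm, Js', J2, J2', J3, J3', sj, c3, n23⟩
    · exact ⟨s, j2, j1, sy.symm, Js', J2, J2', J1, J1', sj, c1, fun e => n12 e.symm⟩
  -- (A13)
  have djk : j ≠ k := by rintro rfl; exact hkj' hjj.symm
  have djk' : j' ≠ k := by rintro rfl; exact hkj hjj
  obtain ⟨t1, a1, a2, a3, a4⟩ := exT j k Hj Hj' Hk Hk' djk hkj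
  obtain ⟨s1, b1, b2, b3, b4⟩ := exS j k Hj Hj' Hk Hk' djk hkj
  obtain ⟨t2, c1, c2, c3, c4⟩ := exT j' k Hi Hi' Hk Hk' djk' hkj'
  obtain ⟨s2, e1, e2, e3, e4⟩ := exS j' k Hi Hi' Hk Hk' djk' hkj'
  -- adjacencies to `j`, `j'`
  have a5 : ¬ G.Adj t1 j' := fun e => tf t1 j j' a1.symm Hj Hi a3 hjj e
  have b5 : ¬ G.Adj s1 j' := fun e => tf s1 j j' b1.symm Hj Hi b3 hjj e
  have c5 : ¬ G.Adj t2 j := fun e => tf t2 j' j c1.symm Hi Hj c3 hjj.symm e
  have e5 : ¬ G.Adj s2 j := fun e => tf s2 j' j e1.symm Hi Hj e3 hjj.symm e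
  have d1 : t1 ≠ s1 := by rintro rfl; exact b2 a2
  have d2 : t1 ≠ t2 := by rintro rfl; exact c5 a3
  have d3 : t1 ≠ s2 := by rintro rfl; exact e2 a2
  have d4 : s1 ≠ t2 := by rintro rfl; exact b2 c2
  have d5 : s1 ≠ s2 := by rintro rfl; exact e5 b3
  have d6 : t2 ≠ s2 := by rintro rfl; exact e2 c2
  have hI : ∀ z ∈ ({t1, s1, t2, s2} : Set V), G.Adj y z ∧ G.Adj z k := by
    intro z hz
    simp only [Set.mem_insert_iff, Set.mem_singleton_iff] at hz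
    rcases hz with rfl | rfl | rfl | rfl
    · exact ⟨a1.symm, a4⟩
    · exact ⟨b1.symm, b4⟩
    · exact ⟨c1.symm, c4⟩
    · exact ⟨e1.symm, e4⟩
  obtain ⟨a, ha, b, hb, hab, key⟩ := k3_core h (fun z hz => (hI z hz).1)
    (fun z hz w hw e => tf z w k (hI z hz).1 (hI w hw).1 Hk e (hI w hw).2 (hI z hz).2)
    d1 d2 d3 d4 d5 d6
  have kj : G.Adj j a ↔ G.Adj j b := key j (by
    intro F h1 h0
    rw [h1 t1 a3.symm, h1 s1 b3.symm, h0 t2 (fun e => c5 e.symm), h0 s2 (fun e => e5 e.symm)])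
  have kj' : G.Adj j' a ↔ G.Adj j' b := key j' (by
    intro F h1 h0
    rw [h0 t1 (fun e => a5 e.symm), h0 s1 (fun e => b5 e.symm), h1 t2 c3.symm, h1 s2 e3.symm])
  have ky' : G.Adj y' a ↔ G.Adj y' b := key y' (by
    intro F h1 h0
    rw [h1 t1 a2.symm, h0 s1 (fun e => b2 e.symm), h1 t2 c2.symm, h0 s2 (fun e => e2 e.symm)])
  have X : ∀ z ∈ ({t1, s1, t2, s2} : Set V), (z = t1 ∧ G.Adj j z ∧ G.Adj y' z) ∨
      (z = s1 ∧ G.Adj j z ∧ ¬ G.Adj y' z) ∨ (z = t2 ∧ ¬ G.Adj j z ∧ G.Adj y' z) ∨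
      (z = s2 ∧ ¬ G.Adj j z ∧ ¬ G.Adj y' z) := by
    intro z hz
    simp only [Set.mem_insert_iff, Set.mem_singleton_iff] at hz
    rcases hz with rfl | rfl | rfl | rfl
    · exact Or.inl ⟨rfl, a3.symm, a2.symm⟩
    · exact Or.inr (Or.inl ⟨rfl, b3.symm, fun e => b2 e.symm⟩)
    · exact Or.inr (Or.inr (Or.inl ⟨rfl, fun e => c5 e.symm, c2.symm⟩))
    · exact Or.inr (Or.inr (Or.inr ⟨rfl, fun e => e5 e.symm, fun e => e2 e.symm⟩))
  have Xa := X a ha
  have Xb := X b hb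
  rcases Xa with ⟨p1, p2, p3⟩ | ⟨p1, p2, p3⟩ | ⟨p1, p2, p3⟩ | ⟨p1, p2, p3⟩ <;>
    rcases Xb with ⟨q1, q2, q3⟩ | ⟨q1, q2, q3⟩ | ⟨q1, q2, q3⟩ | ⟨q1, q2, q3⟩ <;>
    first
    | exact hab (p1.trans q1.symm)
    | exact q2 (kj.1 p2)
    | exact p2 (kj.2 q2)
    | exact q3 (ky'.1 p3)
    | exact p3 (ky'.2 q3)

end SetHom
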